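import Pool.Agent.Q194.PSDPolar

/-!
# MP_a554a0_an: the unital C*-algebras whose completable graphs are unions of cliques
-/

namespace Pool.Agent.Results.MP_a554a0_an.UnitalFactorization

open Pool.Agent.Q194.PSD

/-- **Theorem.** For a unital C*-algebra `A` the following are equivalent:
every graph in `G(A)` is a disjoint union of complete graphs;
there are `x, b ∈ A` with `x* x ≤ b` and `x ≠ v b^(1/2)` for every `v ∈ A` with `‖v‖ ≤ 1`;
some `X ∈ M_2(A)` is not of the form `V |X|` with `V ∈ M_2(A)`, `‖V‖ ≤ 1`. -/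
theorem result (A : Type*) [CStarAlgebra A] [PartialOrder A] [StarOrderedRing A] :
    ((∀ (n : ℕ) (Γ : SimpleGraph (Fin n)), InG A Γ → Cluster Γ) ↔
      ∃ x b : A, star x * x ≤ b ∧ ∀ v : A, ‖v‖ ≤ 1 → x ≠ v * CFC.sqrt b) ∧
    ((∀ (n : ℕ) (Γ : SimpleGraph (Fin n)), InG A Γ → Cluster Γ) ↔
      ∃ X : CStarMatrix (Fin 2) (Fin 2) A, ∀ V P : CStarMatrix (Fin 2) (Fin 2) A,
        ‖V‖ ≤ 1 → 0 ≤ P → P * P = star X * X → X ≠ V * P) := by
  constructor
  · rw [cluster_iff_not_dg]
    unfold Dg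
    push Not
    simp only [norm_le_one_iff']
  · rw [cluster_iff_not_dg, dg_iff_polar]
    unfold Polar
    push Not
    rfl

end Pool.Agent.Results.MP_a554a0_an.UnitalFactorization
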